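import Mathlib
import Pool.Agent.H14.Multinom

set_option autoImplicit false

namespace Pool.Agent.Results.MP_dccd56_co.Diverge

open Filter Pool.Agent.H14.Multinom

/-- Both normalised sequences tend to infinity. -/
theorem result :
    Tendsto (fun n : ℕ => (C n : ℝ) / ((n : ℝ) ^ 2 * Real.log n)) atTop atTop ∧
    Tendsto (fun n : ℕ => (D n : ℝ) / ((n : ℝ) ^ (3 / 2 : ℝ) * √(Real.log n))) atTop atTop :=
  ⟨tendC, tendD⟩

end Pool.Agent.Results.MP_dccd56_co.Diverge
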